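import Pool.Agent.R221.BM.Meas

set_option autoImplicit false

open Filter Topology Set MeasureTheory
open scoped ENNReal NNReal

namespace Pool.Agent.R221.BM

variable {m n : ℕ} {D : Finset (Fin m × Fin n)}

lemma floor_close {a x y M : ℝ} (A : ℕ) (K : ℕ) (ha : 0 < a) (h1 : (A : ℝ) / a ≤ x)
    (h2 : x ≤ (A + 1 : ℝ) / a) (h3 : |x - y| * a ≤ K) (_ : M = a * y) :
    -(K : ℤ) - 1 ≤ (A : ℤ) - ⌊M⌋ ∧ (A : ℤ) - ⌊M⌋ ≤ K + 1 := by
  subst M
  rw [div_le_iff₀ ha] at h1
  rw [le_div_iff₀ ha] at h2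
  have h4 := abs_le.1 (show |(x - y) * a| ≤ K by rw [abs_mul, abs_of_pos ha]; exact h3)
  have f1 := Int.floor_le (a * y)
  have f2 := Int.lt_floor_add_one (a * y)
  constructor
  · have : (-(K : ℝ) - 1) ≤ (A : ℝ) - (⌊a * y⌋ : ℤ) := by nlinarith
    exact_mod_cast this
  · have : (A : ℝ) - (⌊a * y⌋ : ℤ) < K + 2 := by nlinarith
    have h5 : ((A : ℤ) - ⌊a * y⌋ : ℤ) < (K : ℤ) + 2 := by exact_mod_cast this
    omega

/-- address associated with a code of an approximate square -/
noncomputable def addr {k l : ℕ} (d0 : D) (u : Fin k → D) (c : Fin l → (D.image Prod.fst)) : ℕ → D :=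
  fun i => if h : i < k then u ⟨i, h⟩ else
    if h' : i - k < l then
      ⟨(Finset.mem_image.1 (c ⟨i - k, h'⟩).2).choose,
        (Finset.mem_image.1 (c ⟨i - k, h'⟩).2).choose_spec.1⟩
    else d0

lemma addr_lt {k l : ℕ} (d0 : D) (u : Fin k → D) (c : Fin l → (D.image Prod.fst)) (i : ℕ)
    (h : i < k) : addr d0 u c i = u ⟨i, h⟩ := by
  simp [addr, h]

lemma addr_col {k l : ℕ} (d0 : D) (u : Fin k → D) (c : Fin l → (D.image Prod.fst)) (i : ℕ)
    (h : i < l) : (addr d0 u c (k + i) : Fin m × Fin n).1 = (c ⟨i, h⟩ : Fin m) := by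
  have h1 : ¬ (k + i < k) := by omega
  have h2 : k + i - k < l := by omega
  have h3 : k + i - k = i := by omega
  unfold addr
  rw [dif_neg h1, dif_pos h2]
  have := (Finset.mem_image.1 (c ⟨k + i - k, h2⟩).2).choose_spec.2
  refine this.trans ?_
  congr 2
  exact Fin.ext h3

lemma count (hm : 2 ≤ m) (hn : 2 ≤ n) (hD : D.Nonempty) {k L : ℕ} (hk : k ≤ L)
    (hL : (m : ℝ) ^ L ≤ m * (n : ℝ) ^ k) (F : Finset Plane)
    (hF : ∀ x ∈ range (coding (D := D)), ∃ y ∈ F, dist x y ≤ 1 / (n : ℝ) ^ k) :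
    D.card ^ k * numCols D ^ (L - k) ≤ F.card * ((2 * m + 3) * 5) := by
  classical
  obtain ⟨d0, hd0⟩ := hD
  have hm0 : (0 : ℝ) < m := by positivity
  have hn0 : (0 : ℝ) < n := by positivity
  let Code := (Fin k → D) × (Fin (L - k) → (D.image Prod.fst))
  have hcard : Fintype.card Code = D.card ^ k * numCols D ^ (L - k) := by
    have h1 : Fintype.card Code = Fintype.card (Fin k → D) *
        Fintype.card (Fin (L - k) → (D.image Prod.fst)) := Fintype.card_prod _ _
    rw [h1, Fintype.card_fun, Fintype.card_fun, Fintype.card_coe, Fintype.card_coe,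
      Fintype.card_fin, Fintype.card_fin, numCols]
  let om : Code → ℕ → D := fun p => addr ⟨d0, hd0⟩ p.1 p.2
  have hch : ∀ p : Code, ∃ y ∈ F, dist (coding (om p)) y ≤ 1 / (n : ℝ) ^ k :=
    fun p => hF _ ⟨om p, rfl⟩
  choose ctr hctr hdist using hch
  let Φ : Code → Plane × ℤ × ℤ := fun p =>
    (ctr p, (num m (cols (om p)) L : ℤ) - ⌊(m : ℝ) ^ L * (ctr p) 0⌋,
      (num n (rows (om p)) k : ℤ) - ⌊(n : ℝ) ^ k * (ctr p) 1⌋)
  let T : Finset (Plane × ℤ × ℤ) :=
    F ×ˢ (Finset.Icc (-(m : ℤ) - 1) (m + 1)) ×ˢ (Finset.Icc (-((1 : ℕ) : ℤ) - 1) ((1 : ℕ) + 1))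
  have hmaps : ∀ p ∈ (Finset.univ : Finset Code), Φ p ∈ T := by
    intro p _
    have hx := coding_eq hm hn (om p)
    have b0 := val_bounds hm (cols_lt (om p)) L
    have b1 := val_bounds hn (rows_lt (om p)) k
    have c0 := abs_coord_le (coding (om p)) (ctr p) 0
    have c1 := abs_coord_le (coding (om p)) (ctr p) 1
    have hx0 : (coding (om p)) 0 = val m (cols (om p)) := by rw [hx]; simp
    have hx1 : (coding (om p)) 1 = val n (rows (om p)) := by rw [hx]; simp
    rw [hx0] at c0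
    rw [hx1] at c1
    have hp := hdist p
    have hnk : (0 : ℝ) < (n : ℝ) ^ k := by positivity
    have hmL : (0 : ℝ) < (m : ℝ) ^ L := by positivity
    refine Finset.mem_product.2 ⟨hctr p, Finset.mem_product.2 ⟨Finset.mem_Icc.2 ?_,
      Finset.mem_Icc.2 ?_⟩⟩
    · refine floor_close (a := (m : ℝ) ^ L) (y := (ctr p) 0) _ m hmL b0.1 b0.2 ?_ rfl
      calc |val m (cols (om p)) - (ctr p) 0| * (m : ℝ) ^ L
          ≤ (1 / (n : ℝ) ^ k) * (m * (n : ℝ) ^ k) := by
            apply mul_le_mul (c0.trans hp) hL (by positivity) (by positivity)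
        _ = m := by field_simp
    · refine floor_close (a := (n : ℝ) ^ k) (y := (ctr p) 1) _ 1 hnk b1.1 b1.2 ?_ rfl
      calc |val n (rows (om p)) - (ctr p) 1| * (n : ℝ) ^ k
          ≤ (1 / (n : ℝ) ^ k) * ((n : ℝ) ^ k) := by
            apply mul_le_mul (c1.trans hp) le_rfl (by positivity) (by positivity)
        _ = (1 : ℕ) := by field_simp; simp
  have hinj : Set.InjOn Φ ((Finset.univ : Finset Code) : Set Code) := by
    rintro p - q - hpq
    simp only [Φ, Prod.mk.injEq] at hpq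
    obtain ⟨h1, h2, h3⟩ := hpq
    rw [h1] at h2 h3
    have hA : num m (cols (om p)) L = num m (cols (om q)) L := by
      have : (num m (cols (om p)) L : ℤ) = num m (cols (om q)) L := by linarith
      exact_mod_cast this
    have hB : num n (rows (om p)) k = num n (rows (om q)) k := by
      have : (num n (rows (om p)) k : ℤ) = num n (rows (om q)) k := by linarith
      exact_mod_cast this
    have hc := num_inj (cols_lt (om p)) (cols_lt (om q)) L hA
    have hr := num_inj (rows_lt (om p)) (rows_lt (om q)) k hB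
    refine Prod.ext ?_ ?_
    · funext i
      have e1 := addr_lt ⟨d0, hd0⟩ p.1 p.2 i i.2
      have e2 := addr_lt ⟨d0, hd0⟩ q.1 q.2 i i.2
      have h4 : om p i = om q i := by
        apply Subtype.ext
        apply Prod.ext
        · exact Fin.ext (hc i (by omega))
        · exact Fin.ext (hr i i.2)
      exact e1.symm.trans (h4.trans e2)
    · funext i
      have e1 := addr_col ⟨d0, hd0⟩ p.1 p.2 i i.2
      have e2 := addr_col ⟨d0, hd0⟩ q.1 q.2 i i.2
      apply Subtype.ext
      have h4 : ((om p (k + i) : D) : Fin m × Fin n).1 = ((om q (k + i) : D) : Fin m × Fin n).1 :=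
        Fin.ext (hc (k + i) (by omega))
      exact e1.symm.trans (h4.trans e2)
  have h := Finset.card_le_card_of_injOn Φ hmaps hinj
  rw [Finset.card_univ, hcard] at h
  refine h.trans (le_of_eq ?_)
  simp only [T, Finset.card_product, Int.card_Icc]
  congr 2
  omega

end Pool.Agent.R221.BM
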