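import Pool.Agent.R221.BM.Digits

set_option autoImplicit false

open Filter Topology Set MeasureTheory
open scoped ENNReal NNReal

namespace Pool.Agent.R221.BM

/-- The Euclidean plane. -/
abbrev Plane : Type := EuclideanSpace ℝ (Fin 2)

/-- The affine contraction `f_{ij}(x, y) = ((x + i)/m, (y + j)/n)` where `d = (i, j)`. -/
noncomputable def contr {m n : ℕ} (d : Fin m × Fin n) (x : Plane) : Plane :=
  !₂[(x 0 + (d.1 : ℕ)) / m, (x 1 + (d.2 : ℕ)) / n]

/-- `Λ` is the Bedford-McMullen carpet given by `D`: a nonempty compact set which is the union of its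
images under the contractions `f_{ij}`, `(i, j) ∈ D`. -/
def IsCarpet {m n : ℕ} (D : Finset (Fin m × Fin n)) (Λ : Set Plane) : Prop :=
  Λ.Nonempty ∧ IsCompact Λ ∧ Λ = ⋃ d ∈ D, contr d '' Λ

/-- The composition `f_{ω_0} ∘ ⋯ ∘ f_{ω_{k-1}}`. -/
noncomputable def word {m n : ℕ} {D : Finset (Fin m × Fin n)} (ω : ℕ → D) : ℕ → Plane → Plane
  | 0 => id
  | k + 1 => word ω k ∘ contr (ω k : Fin m × Fin n)

/-- The coding map `π(ω) = lim_k f_{ω_0} ∘ ⋯ ∘ f_{ω_{k-1}}(0)`. -/
noncomputable def coding {m n : ℕ} {D : Finset (Fin m × Fin n)} (ω : ℕ → D) : Plane :=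
  limUnder atTop fun k => word ω k 0

/-- The left shift on `D^ℕ`. -/
def shift {m n : ℕ} {D : Finset (Fin m × Fin n)} (ω : ℕ → D) : ℕ → D := fun i => ω (i + 1)

/-- The Minkowski dimension of a measure on the plane: the infimum of the `s ≥ 0` for which there is
`C > 0` with `μ(B(x,r)) ≥ C r^s` for all `x ∈ supp μ` and `0 < r ≤ 1` (`∞` if there is no such
`s`). -/
noncomputable def measureDim (μ : Measure Plane) : ℝ≥0∞ :=
  ⨅ (s : ℝ≥0) (_ : ∃ C : ℝ, 0 < C ∧ ∀ x ∈ μ.support, ∀ r : ℝ, 0 < r → r ≤ 1 →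
    ENNReal.ofReal (C * r ^ (s : ℝ)) ≤ μ (Metric.closedBall x r)), (s : ℝ≥0∞)

/-- `s` is the Minkowski (box-counting) dimension of `Λ`: with `N(r)` the least number of closed balls
of radius `r` with centres in `Λ` that cover `Λ`, `log N(r) / log (1/r) → s` as `r → 0`. -/
def HasMinkowskiDim (Λ : Set Plane) (s : ℝ) : Prop :=
  Tendsto (fun r : ℝ => Real.log ((Metric.coveringNumber r.toNNReal Λ).toNat : ℝ) /
    Real.log (1 / r)) (𝓝[>] 0) (𝓝 s)

section basic

variable {m n : ℕ} {D : Finset (Fin m × Fin n)}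

/-- column digits -/
def cols (ω : ℕ → D) : ℕ → ℕ := fun i => ((ω i : Fin m × Fin n).1 : ℕ)

/-- row digits -/
def rows (ω : ℕ → D) : ℕ → ℕ := fun i => ((ω i : Fin m × Fin n).2 : ℕ)

lemma cols_lt (ω : ℕ → D) (i : ℕ) : cols ω i < m := (ω i : Fin m × Fin n).1.2
lemma rows_lt (ω : ℕ → D) (i : ℕ) : rows ω i < n := (ω i : Fin m × Fin n).2.2

lemma word_eq (hm : 2 ≤ m) (hn : 2 ≤ n) (ω : ℕ → D) (k : ℕ) : ∀ x : Plane,
    (word ω k x) 0 = (num m (cols ω) k + x 0) / (m : ℝ) ^ k ∧
    (word ω k x) 1 = (num n (rows ω) k + x 1) / (n : ℝ) ^ k := by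
  have hm0 : (m : ℝ) ≠ 0 := by positivity
  have hn0 : (n : ℝ) ≠ 0 := by positivity
  induction k with
  | zero => intro x; simp [word, num]
  | succ k ih =>
    intro x
    have h := ih (contr (ω k : Fin m × Fin n) x)
    simp only [word, Function.comp]
    refine ⟨h.1.trans ?_, h.2.trans ?_⟩
    · simp only [contr, num, cols]
      simp
      field_simp
      ring
    · simp only [contr, num, rows]
      simp
      field_simp
      ring

lemma tendsto_word (hm : 2 ≤ m) (hn : 2 ≤ n) (ω : ℕ → D) (x : ℕ → Plane)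
    (hx : ∃ C : ℝ, ∀ k, |x k 0| ≤ C ∧ |x k 1| ≤ C) :
    Tendsto (fun k => word ω k (x k)) atTop (𝓝 !₂[val m (cols ω), val n (rows ω)]) := by
  obtain ⟨C, hC⟩ := hx
  have key : ∀ (b : ℕ), 2 ≤ b → ∀ (a : ℕ → ℕ), (∀ i, a i < b) → ∀ y : ℕ → ℝ, (∀ k, |y k| ≤ C) →
      Tendsto (fun k => ((num b a k : ℝ) + y k) / (b : ℝ) ^ k) atTop (𝓝 (val b a)) := by
    intro b hb a ha y hy
    have hb' : (2 : ℝ) ≤ b := by exact_mod_cast hb
    have hb0 : (0 : ℝ) < b := by linarith
    have hz : Tendsto (fun k : ℕ => (C + 1) * (1 / (b : ℝ)) ^ k) atTop (𝓝 0) := by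
      have := (tendsto_pow_atTop_nhds_zero_of_lt_one (r := (1 / b : ℝ)) (by positivity)
        (by rw [div_lt_one hb0]; linarith)).const_mul (C + 1)
      simpa using this
    rw [tendsto_iff_dist_tendsto_zero]
    refine squeeze_zero (fun _ => dist_nonneg) (fun k => ?_) hz
    have h1 := val_bounds hb ha k
    rw [Real.dist_eq]
    have hp : (0 : ℝ) < (b : ℝ) ^ k := by positivity
    have h2 : (1 / (b : ℝ)) ^ k = 1 / (b : ℝ) ^ k := by rw [one_div, inv_pow, one_div]
    rw [h2, add_div]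
    rw [add_div] at h1
    have h3 : |y k / (b : ℝ) ^ k| ≤ C / (b : ℝ) ^ k := by
      rw [abs_div, abs_of_pos hp]
      exact div_le_div_of_nonneg_right (hy k) hp.le
    have h4 := abs_le.1 h3
    rw [abs_le]
    have h5 : (C + 1) * (1 / (b : ℝ) ^ k) = C / (b : ℝ) ^ k + 1 / (b : ℝ) ^ k := by ring
    rw [h5]
    constructor <;> linarith [h1.1, h1.2, h4.1, h4.2]
  have h0 := key m hm (cols ω) (cols_lt ω) (fun k => x k 0) fun k => (hC k).1
  have h1 := key n hn (rows ω) (rows_lt ω) (fun k => x k 1) fun k => (hC k).2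
  have hp : Tendsto (fun k => WithLp.ofLp (word ω k (x k))) atTop
      (𝓝 ![val m (cols ω), val n (rows ω)]) := by
    rw [tendsto_pi_nhds]
    intro i
    fin_cases i
    · simpa [(word_eq hm hn ω _ _).1] using h0
    · simpa [(word_eq hm hn ω _ _).2] using h1
  exact ((PiLp.continuous_toLp 2 (fun _ : Fin 2 => ℝ)).tendsto _).comp hp

lemma coding_eq (hm : 2 ≤ m) (hn : 2 ≤ n) (ω : ℕ → D) :
    coding ω = !₂[val m (cols ω), val n (rows ω)] :=
  (tendsto_word hm hn ω (fun _ => 0) ⟨0, by simp⟩).limUnder_eq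

lemma dist_le_add (x y : Plane) : dist x y ≤ |x 0 - y 0| + |x 1 - y 1| := by
  rw [EuclideanSpace.dist_eq, Fin.sum_univ_two, Real.dist_eq, Real.dist_eq]
  rw [← Real.sqrt_sq (by positivity : 0 ≤ |x 0 - y 0| + |x 1 - y 1|)]
  apply Real.sqrt_le_sqrt
  nlinarith [abs_nonneg (x 0 - y 0), abs_nonneg (x 1 - y 1)]

lemma abs_coord_le (x y : Plane) (i : Fin 2) : |x i - y i| ≤ dist x y := by
  have := EuclideanSpace.dist_eq x y
  rw [this, Fin.sum_univ_two, Real.dist_eq, Real.dist_eq]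
  apply Real.le_sqrt_of_sq_le
  fin_cases i
  · simp; positivity
  · simp; positivity

/-- the attractor is the range of the coding map -/
lemma carpet_eq_range (hm : 2 ≤ m) (hn : 2 ≤ n) {Λ : Set Plane} (hΛ : IsCarpet D Λ) :
    Λ = range (coding (D := D)) := by
  obtain ⟨⟨x0, hx0⟩, hc, hu⟩ := hΛ
  obtain ⟨C, hC⟩ : ∃ C : ℝ, ∀ x ∈ Λ, |x 0| ≤ C ∧ |x 1| ≤ C := by
    obtain ⟨C, hC⟩ := hc.isBounded.exists_norm_le
    refine ⟨C, fun x hx => ?_⟩
    have h0 := abs_coord_le x 0 0
    have h1 := abs_coord_le x 0 1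
    have h2 := hC x hx
    rw [dist_zero_right] at h0 h1
    simp only [PiLp.zero_apply, sub_zero] at h0 h1
    exact ⟨h0.trans h2, h1.trans h2⟩
  apply Subset.antisymm
  · -- choose an address of a point
    intro x hx
    have hstep : ∀ y : Λ, ∃ (d : D) (z : Λ), (y : Plane) = contr (d : Fin m × Fin n) z := by
      rintro ⟨y, hy⟩
      have hy' := hy
      rw [hu] at hy'
      simp only [mem_iUnion, mem_image] at hy'
      obtain ⟨d, hd, z, hz, rfl⟩ := hy'
      exact ⟨⟨d, hd⟩, ⟨z, hz⟩, rfl⟩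
    choose dd zz hdz using hstep
    let pt : ℕ → Λ := fun k => Nat.rec ⟨x, hx⟩ (fun _ y => zz y) k
    let ω : ℕ → D := fun k => dd (pt k)
    have hpt : ∀ k : ℕ, (pt k).val = contr (ω k).val (pt (k + 1)).val := by
      intro k
      exact hdz (pt k)
    have hw : ∀ k : ℕ, word ω k (pt k).val = x := by
      intro k
      induction k with
      | zero => rfl
      | succ k ih =>
        simp only [word, Function.comp]
        rw [← hpt k]
        exact ih
    have ht := tendsto_word hm hn ω (fun k => (pt k).val) ⟨C, fun k => hC _ (pt k).2⟩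
    refine ⟨ω, ?_⟩
    rw [coding_eq hm hn]
    refine tendsto_nhds_unique ht ?_
    simp only [hw]
    exact tendsto_const_nhds
  · rintro _ ⟨ω, rfl⟩
    have hw : ∀ k, ∀ y ∈ Λ, word ω k y ∈ Λ := by
      intro k
      induction k with
      | zero => intro y hy; exact hy
      | succ k ih =>
        intro y hy
        simp only [word, Function.comp]
        apply ih
        rw [hu]
        simp only [mem_iUnion, mem_image]
        exact ⟨_, (ω k).2, y, hy, rfl⟩
    have ht := tendsto_word hm hn ω (fun _ => x0) ⟨C, fun k => hC _ hx0⟩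
    rw [coding_eq hm hn]
    exact hc.isClosed.mem_of_tendsto ht (Eventually.of_forall fun k => hw k x0 hx0)

end basic

end Pool.Agent.R221.BM
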