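import Mathlib

set_option autoImplicit false

open Filter Topology Set

namespace Pool.Agent.R221.BM

/-- integer with base `b` digits `a 0, …, a (L-1)` (most significant first) -/
def num (b : ℕ) (a : ℕ → ℕ) : ℕ → ℕ
  | 0 => 0
  | L + 1 => b * num b a L + a L

/-- real number with base `b` digits `a 0, a 1, …` after the point -/
noncomputable def val (b : ℕ) (a : ℕ → ℕ) : ℝ := ∑' i, (a i : ℝ) / (b : ℝ) ^ (i + 1)

lemma num_inj {b : ℕ} {a a' : ℕ → ℕ} (ha : ∀ i, a i < b) (ha' : ∀ i, a' i < b) :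
    ∀ L, num b a L = num b a' L → ∀ i < L, a i = a' i := by
  intro L
  induction L with
  | zero => intro _ i hi; omega
  | succ L ih =>
    intro h i hi
    simp only [num] at h
    have hb : 0 < b := lt_of_le_of_lt (Nat.zero_le _) (ha 0)
    have h1 : a L = a' L := by
      have e1 : (b * num b a L + a L) % b = a L := by
        rw [Nat.mul_add_mod]; exact Nat.mod_eq_of_lt (ha L)
      have e2 : (b * num b a' L + a' L) % b = a' L := by
        rw [Nat.mul_add_mod]; exact Nat.mod_eq_of_lt (ha' L)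
      rw [← e1, ← e2, h]
    have h2 : num b a L = num b a' L := by
      have h3 : b * num b a L = b * num b a' L := by omega
      exact Nat.eq_of_mul_eq_mul_left hb h3
    rcases Nat.lt_succ_iff_lt_or_eq.1 hi with h4 | h4
    · exact ih h2 i h4
    · rw [h4]; exact h1

lemma num_congr {b : ℕ} {a a' : ℕ → ℕ} : ∀ L, (∀ i < L, a i = a' i) → num b a L = num b a' L := by
  intro L
  induction L with
  | zero => intro _; rfl
  | succ L ih =>
    intro h
    simp only [num]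
    rw [ih fun i hi => h i (by omega), h L (by omega)]

lemma val_summable {b : ℕ} (hb : 2 ≤ b) {a : ℕ → ℕ} (ha : ∀ i, a i < b) :
    Summable fun i => (a i : ℝ) / (b : ℝ) ^ (i + 1) := by
  have hb' : (2 : ℝ) ≤ b := by exact_mod_cast hb
  have hb0 : (0 : ℝ) < b := by linarith
  refine Summable.of_nonneg_of_le (fun i => by positivity) (fun i => ?_)
    (summable_geometric_of_lt_one (r := (1 / b : ℝ)) (by positivity)
      (by rw [div_lt_one hb0]; linarith))
  rw [one_div, inv_pow, pow_succ, ← div_div, div_right_comm, ← one_div]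
  gcongr
  rw [div_le_one hb0]
  exact_mod_cast (ha i).le

lemma partial_sum {b : ℕ} (hb : 2 ≤ b) (a : ℕ → ℕ) (L : ℕ) :
    ∑ i ∈ Finset.range L, (a i : ℝ) / (b : ℝ) ^ (i + 1) = num b a L / (b : ℝ) ^ L := by
  have hb' : (2 : ℝ) ≤ b := by exact_mod_cast hb
  have hb0 : (0 : ℝ) < b := by linarith
  induction L with
  | zero => simp [num]
  | succ L ih =>
    rw [Finset.sum_range_succ, ih]
    simp only [num]
    push_cast
    field_simp
    ring

lemma tail_le {b : ℕ} (hb : 2 ≤ b) {a : ℕ → ℕ} (ha : ∀ i, a i < b) (L : ℕ) :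
    ∑' i, (a (i + L) : ℝ) / (b : ℝ) ^ (i + L + 1) ≤ 1 / (b : ℝ) ^ L := by
  have hb' : (2 : ℝ) ≤ b := by exact_mod_cast hb
  have hb0 : (0 : ℝ) < b := by linarith
  have hs : Summable fun i => ((b : ℝ) - 1) / (b : ℝ) ^ (i + L + 1) := by
    have := (summable_geometric_of_lt_one (r := (1 / b : ℝ)) (by positivity)
      (by rw [div_lt_one hb0]; linarith)).mul_left (((b : ℝ) - 1) / (b : ℝ) ^ (L + 1))
    refine this.congr fun i => ?_
    rw [one_div, inv_pow, pow_add (b : ℝ) (i + L) 1, pow_add (b : ℝ) i L, pow_add (b : ℝ) L 1]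
    field_simp
  have h1 : ∑' i, (a (i + L) : ℝ) / (b : ℝ) ^ (i + L + 1) ≤
      ∑' i, ((b : ℝ) - 1) / (b : ℝ) ^ (i + L + 1) := by
    refine Summable.tsum_le_tsum (fun i => ?_) ?_ hs
    · gcongr
      have : a (i + L) + 1 ≤ b := ha _
      have : ((a (i + L) : ℕ) : ℝ) + 1 ≤ b := by exact_mod_cast this
      linarith
    · exact (summable_nat_add_iff L).2 (val_summable hb ha)
  refine h1.trans (le_of_eq ?_)
  have h2 : ∀ i : ℕ, ((b : ℝ) - 1) / (b : ℝ) ^ (i + L + 1) =
      (((b : ℝ) - 1) / (b : ℝ) ^ (L + 1)) * (1 / b : ℝ) ^ i := by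
    intro i
    rw [one_div, inv_pow, pow_add (b : ℝ) (i + L) 1, pow_add (b : ℝ) i L, pow_add (b : ℝ) L 1]
    field_simp
  simp_rw [h2]
  rw [tsum_mul_left, tsum_geometric_of_lt_one (by positivity)
      (by rw [div_lt_one hb0]; linarith)]
  have h3 : (b : ℝ) - 1 ≠ 0 := by linarith
  rw [pow_succ]
  field_simp

lemma val_bounds {b : ℕ} (hb : 2 ≤ b) {a : ℕ → ℕ} (ha : ∀ i, a i < b) (L : ℕ) :
    (num b a L : ℝ) / (b : ℝ) ^ L ≤ val b a ∧ val b a ≤ (num b a L + 1 : ℝ) / (b : ℝ) ^ L := by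
  have hs := val_summable hb ha
  have h1 : val b a = ∑ i ∈ Finset.range L, (a i : ℝ) / (b : ℝ) ^ (i + 1) +
      ∑' i, (a (i + L) : ℝ) / (b : ℝ) ^ (i + L + 1) := (hs.sum_add_tsum_nat_add L).symm
  rw [h1, partial_sum hb a L]
  constructor
  · have : 0 ≤ ∑' i, (a (i + L) : ℝ) / (b : ℝ) ^ (i + L + 1) :=
      tsum_nonneg fun i => by positivity
    linarith
  · have := tail_le hb ha L
    rw [add_div]
    linarith

lemma val_close {b : ℕ} (hb : 2 ≤ b) {a a' : ℕ → ℕ} (ha : ∀ i, a i < b) (ha' : ∀ i, a' i < b)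
    (L : ℕ) (h : ∀ i < L, a i = a' i) : |val b a - val b a'| ≤ 1 / (b : ℝ) ^ L := by
  have h1 := val_bounds hb ha L
  have h2 := val_bounds hb ha' L
  rw [num_congr L h] at h1
  rw [add_div] at h1 h2
  rw [abs_le]
  constructor <;> linarith [h1.1, h1.2, h2.1, h2.2]

lemma val_nonneg {b : ℕ} (a : ℕ → ℕ) : 0 ≤ val b a := tsum_nonneg fun i => by positivity

lemma val_le_one {b : ℕ} (hb : 2 ≤ b) {a : ℕ → ℕ} (ha : ∀ i, a i < b) : val b a ≤ 1 := by
  have := (val_bounds hb ha 0).2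
  simpa [num] using this

lemma val_succ {b : ℕ} (hb : 2 ≤ b) {a : ℕ → ℕ} (ha : ∀ i, a i < b) :
    val b a = (val b (fun i => a (i + 1)) + a 0) / b := by
  have hb' : (2 : ℝ) ≤ b := by exact_mod_cast hb
  have hs := val_summable hb ha
  have h1 : val b a = ∑ i ∈ Finset.range 1, (a i : ℝ) / (b : ℝ) ^ (i + 1) +
      ∑' i, (a (i + 1) : ℝ) / (b : ℝ) ^ (i + 1 + 1) := (hs.sum_add_tsum_nat_add 1).symm
  have h2 : ∑' i, (a (i + 1) : ℝ) / (b : ℝ) ^ (i + 1 + 1) = val b (fun i => a (i + 1)) / b := by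
    rw [val, ← tsum_div_const]
    refine tsum_congr fun i => ?_
    rw [pow_succ (b : ℝ) (i + 1), ← div_div]
  rw [h1, h2]
  simp
  ring

end Pool.Agent.R221.BM
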