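import Pool.Agent.R221.BM.Main

set_option autoImplicit false

open Filter Topology Set MeasureTheory
open scoped ENNReal NNReal

namespace Pool.Agent.R221.BM

variable {m n : ℕ} {D : Finset (Fin m × Fin n)}

lemma coding_shift (hm : 2 ≤ m) (hn : 2 ≤ n) (ω : ℕ → D) :
    coding ω = contr (ω 0 : Fin m × Fin n) (coding (shift ω)) := by
  rw [coding_eq hm hn, coding_eq hm hn, val_succ hm (cols_lt ω), val_succ hn (rows_lt ω)]
  ext i
  fin_cases i
  · simp [contr, cols]
    rfl
  · simp [contr, rows]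
    rfl

lemma continuous_val (b : ℕ) (hb : 2 ≤ b) (f : D → ℕ) (hf : ∀ d, f d < b) :
    Continuous fun ω : ℕ → D => val b (fun i => f (ω i)) := by
  have hb' : (2 : ℝ) ≤ b := by exact_mod_cast hb
  have hb0 : (0 : ℝ) < b := by linarith
  unfold val
  refine continuous_tsum (u := fun i => (1 / (b : ℝ)) ^ i) (fun i => ?_)
    (summable_geometric_of_lt_one (r := (1 / b : ℝ)) (by positivity)
      (by rw [div_lt_one hb0]; linarith)) (fun i ω => ?_)
  · refine Continuous.div_const ?_ _
    have h1 : Continuous fun d : D => (f d : ℝ) := continuous_of_discreteTopology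
    exact h1.comp (continuous_apply i)
  · rw [Real.norm_of_nonneg (by positivity), one_div, inv_pow, pow_succ, ← div_div,
      div_right_comm, ← one_div]
    gcongr
    rw [div_le_one hb0]
    exact_mod_cast (hf _).le

lemma continuous_coding (hm : 2 ≤ m) (hn : 2 ≤ n) : Continuous (coding (D := D)) := by
  have h : coding (D := D) = fun ω => !₂[val m (cols ω), val n (rows ω)] :=
    funext fun ω => coding_eq hm hn ω
  rw [h]
  refine (PiLp.continuous_toLp 2 (fun _ : Fin 2 => ℝ)).comp ?_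
  rw [continuous_pi_iff]
  intro i
  fin_cases i
  · exact continuous_val m hm (fun d : D => ((d : Fin m × Fin n).1 : ℕ)) fun d =>
      (d : Fin m × Fin n).1.2
  · exact continuous_val n hn (fun d : D => ((d : Fin m × Fin n).2 : ℕ)) fun d =>
      (d : Fin m × Fin n).2.2

lemma isCarpet_range (hm : 2 ≤ m) (hn : 2 ≤ n) (hD : D.Nonempty) :
    IsCarpet D (range (coding (D := D))) := by
  obtain ⟨d0, hd0⟩ := hD
  refine ⟨⟨_, ⟨fun _ => ⟨d0, hd0⟩, rfl⟩⟩, isCompact_range (continuous_coding hm hn), ?_⟩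
  apply Subset.antisymm
  · rintro _ ⟨ω, rfl⟩
    simp only [mem_iUnion, mem_image]
    exact ⟨_, (ω 0).2, _, ⟨shift ω, rfl⟩, (coding_shift hm hn ω).symm⟩
  · intro x hx
    simp only [mem_iUnion, mem_image] at hx
    obtain ⟨d, hd, _, ⟨ω, rfl⟩, rfl⟩ := hx
    refine ⟨fun i => Nat.casesOn i ⟨d, hd⟩ ω, ?_⟩
    rw [coding_shift hm hn]
    rfl

/-- comparison of powers -/
lemma le_of_rpow_le {s t C : ℝ} (h : ∀ R : ℝ, 1 ≤ R → R ^ s ≤ C * R ^ t) : s ≤ t := by
  by_contra hlt
  rw [not_le] at hlt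
  have h1 : ∀ R : ℝ, 1 ≤ R → R ^ (s - t) ≤ C := by
    intro R hR
    have hR0 : 0 < R := by linarith
    rw [Real.rpow_sub hR0, div_le_iff₀ (by positivity)]
    exact h R hR
  have h2 := tendsto_rpow_atTop (sub_pos.2 hlt)
  obtain ⟨R, hR⟩ := ((h2.eventually_gt_atTop C).and (eventually_ge_atTop 1)).exists
  exact absurd (h1 R hR.2) (not_le.2 hR.1)

lemma ball_exponent_ge (hm : 2 ≤ m) (hmn : m < n) (hD : D.Nonempty) {C t : ℝ} (hC : 0 < C)
    (h : ∀ x ∈ range (coding (D := D)), ∀ r : ℝ, 0 < r → r ≤ 1 →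
      ENNReal.ofReal (C * r ^ t) ≤ mu D (Metric.closedBall x r)) : sdim D ≤ t := by
  have := mu_prob hm hmn hD
  obtain ⟨c, hc, hcov⟩ := cover_ge hm hmn hD
  apply le_of_rpow_le (C := (C * (1 / 2) ^ t)⁻¹ / c)
  intro R hR
  have hR0 : 0 < R := by linarith
  have hr : 0 < 1 / R := by positivity
  have hr1 : 1 / R ≤ 1 := by rw [div_le_one hR0]; exact hR
  have h1 := pack_le hC h hr hr1
  have htop : Metric.coveringNumber (1 / R).toNNReal (range (coding (D := D))) ≠ ⊤ :=
    ne_top_of_le_ne_top (ENat.natCast_ne_top _) h1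
  have h2 := hcov (1 / R) hr hr1 htop
  have h3 : (Metric.coveringNumber (1 / R).toNNReal (range (coding (D := D)))).toNat ≤
      ⌊(C * (1 / R / 2) ^ t)⁻¹⌋₊ := by
    have := ENat.toNat_le_toNat h1 (ENat.natCast_ne_top _)
    simpa using this
  have h4 : (((Metric.coveringNumber (1 / R).toNNReal (range (coding (D := D)))).toNat : ℕ) : ℝ) ≤
      (C * (1 / R / 2) ^ t)⁻¹ :=
    le_trans (by exact_mod_cast h3) (Nat.floor_le (by positivity))
  have h5 := h2.trans h4
  have h6 : (C * (1 / R / 2) ^ t)⁻¹ = (C * (1 / 2) ^ t)⁻¹ * R ^ t := by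
    have e1 : (1 / R / 2 : ℝ) = (1 / 2) * R⁻¹ := by ring
    rw [e1, Real.mul_rpow (by positivity) (by positivity), Real.inv_rpow hR0.le]
    have : 0 < R ^ t := by positivity
    field_simp
  rw [one_div_one_div, h6] at h5
  rw [div_mul_eq_mul_div, le_div_iff₀ hc]
  linarith

lemma measureDim_mu (hm : 2 ≤ m) (hmn : m < n) (hD : D.Nonempty) :
    measureDim (mu D) = ENNReal.ofReal (sdim D) := by
  have hn : 2 ≤ n := by omega
  have hcar := isCarpet_range hm hn hD
  have hsupp := support_mu hm hmn hD hcar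
  have hs := sdim_nonneg hm hmn hD
  apply le_antisymm
  · apply le_of_forall_pos_le_add
    intro ε hε
    -- choose a real
    by_cases hεtop : ε = ⊤
    · rw [hεtop]; simp
    have hεr : 0 < ε.toReal := ENNReal.toReal_pos hε.ne' hεtop
    obtain ⟨C, hC, h⟩ := mu_ball hm hmn hD hεr
    have h1 : measureDim (mu D) ≤ ((sdim D + ε.toReal).toNNReal : ℝ≥0∞) := by
      unfold measureDim
      refine iInf₂_le _ ⟨C, hC, ?_⟩
      rw [hsupp, Real.coe_toNNReal _ (by positivity)]
      exact h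
    refine h1.trans (le_of_eq ?_)
    change ENNReal.ofReal (sdim D + ε.toReal) = _
    rw [ENNReal.ofReal_add hs hεr.le, ENNReal.ofReal_toReal hεtop]
  · unfold measureDim
    refine le_iInf₂ fun s hs' => ?_
    obtain ⟨C, hC, h⟩ := hs'
    rw [hsupp] at h
    have := ball_exponent_ge hm hmn hD hC h
    rw [ENNReal.ofReal_le_iff_le_toReal (by simp)]
    simpa using this

lemma hasMinkowskiDim (hm : 2 ≤ m) (hmn : m < n) (hD : D.Nonempty) :
    HasMinkowskiDim (range (coding (D := D))) (sdim D) := by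
  have := mu_prob hm hmn hD
  obtain ⟨c, hc, hcov⟩ := cover_ge hm hmn hD
  unfold HasMinkowskiDim
  rw [Metric.tendsto_nhds]
  intro ε hε
  obtain ⟨C, hC, hball⟩ := mu_ball hm hmn hD (show 0 < ε / 2 by positivity)
  set t : ℝ := sdim D + ε / 2 with ht
  -- constants
  set K : ℝ := |Real.log c| + |Real.log ((C * (1 / 2) ^ t)⁻¹)| + 1 with hK
  have hKpos : 0 < K := by positivity
  have hlog : Tendsto (fun r : ℝ => Real.log (1 / r)) (𝓝[>] 0) atTop := by
    refine Real.tendsto_log_atTop.comp ?_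
    exact (tendsto_inv_nhdsGT_zero (𝕜 := ℝ)).congr fun r => (one_div r).symm
  have hev1 := hlog.eventually_gt_atTop (2 * K / ε)
  have hev2 : ∀ᶠ r : ℝ in 𝓝[>] 0, r ≤ 1 :=
    nhdsWithin_le_nhds (eventually_le_nhds one_pos)
  filter_upwards [hev1, hev2, self_mem_nhdsWithin] with r hr1 hr2 hr0
  have hr : 0 < r := hr0
  have h1 := pack_le hC hball hr hr2
  have htop : Metric.coveringNumber r.toNNReal (range (coding (D := D))) ≠ ⊤ :=
    ne_top_of_le_ne_top (ENat.natCast_ne_top _) h1
  have h2 := hcov r hr hr2 htop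
  have h3 : (Metric.coveringNumber r.toNNReal (range (coding (D := D)))).toNat ≤
      ⌊(C * (r / 2) ^ t)⁻¹⌋₊ := by
    have := ENat.toNat_le_toNat h1 (ENat.natCast_ne_top _)
    simpa using this
  set N : ℝ := (((Metric.coveringNumber r.toNNReal (range (coding (D := D)))).toNat : ℕ) : ℝ)
    with hN
  have h4 : N ≤ (C * (r / 2) ^ t)⁻¹ :=
    le_trans (by rw [hN]; exact_mod_cast h3) (Nat.floor_le (by positivity))
  have h6 : (C * (r / 2) ^ t)⁻¹ = (C * (1 / 2) ^ t)⁻¹ * (1 / r) ^ t := by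
    have e1 : (r / 2 : ℝ) = (1 / 2) * r := by ring
    rw [e1, Real.mul_rpow (by positivity) (by positivity), Real.div_rpow (by positivity) hr.le,
      Real.one_rpow]
    have : 0 < r ^ t := by positivity
    field_simp
  rw [h6] at h4
  have hLpos : 0 < Real.log (1 / r) := lt_trans (by positivity) hr1
  have hNpos : 0 < N := lt_of_lt_of_le (by positivity) h2
  have hlow : Real.log c + sdim D * Real.log (1 / r) ≤ Real.log N := by
    rw [← Real.log_rpow (by positivity), ← Real.log_mul (by positivity) (by positivity)]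
    exact Real.log_le_log (by positivity) h2
  have hupp : Real.log N ≤ Real.log ((C * (1 / 2) ^ t)⁻¹) + t * Real.log (1 / r) := by
    rw [← Real.log_rpow (by positivity), ← Real.log_mul (by positivity) (by positivity)]
    exact Real.log_le_log hNpos h4
  have hKL : K < ε / 2 * Real.log (1 / r) := by
    rw [div_lt_iff₀ hε] at hr1
    linarith
  rw [Real.dist_eq, abs_lt]
  have a1 := neg_abs_le (Real.log c)
  have a2 := le_abs_self (Real.log ((C * (1 / 2) ^ t)⁻¹))
  have a3 := abs_nonneg (Real.log c)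
  have a4 := abs_nonneg (Real.log ((C * (1 / 2) ^ t)⁻¹))
  constructor
  · rw [lt_sub_iff_add_lt, lt_div_iff₀ hLpos]
    nlinarith
  · rw [sub_lt_iff_lt_add, div_lt_iff₀ hLpos]
    rw [ht] at hupp
    nlinarith

end Pool.Agent.R221.BM
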