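import Pool.Agent.R221.BM.Count

set_option autoImplicit false

open Filter Topology Set MeasureTheory
open scoped ENNReal NNReal

namespace Pool.Agent.R221.BM

variable {m n : ℕ} {D : Finset (Fin m × Fin n)}

/-- length of the column word of an approximate square of level `k` -/
noncomputable def Lk (m n k : ℕ) : ℕ := ⌈(k : ℝ) * (Real.log n / Real.log m)⌉₊

lemma log_pos_of {b : ℕ} (hb : 2 ≤ b) : 0 < Real.log b := Real.log_pos (by exact_mod_cast hb)

lemma pow_eq_exp {b : ℕ} (hb : 2 ≤ b) (k : ℕ) : (b : ℝ) ^ k = Real.exp (k * Real.log b) := by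
  rw [Real.exp_nat_mul, Real.exp_log (by positivity)]

lemma le_Lk (hm : 2 ≤ m) (hmn : m < n) (k : ℕ) : k ≤ Lk m n k := by
  have h1 : (1 : ℝ) ≤ Real.log n / Real.log m := by
    rw [one_le_div (log_pos_of hm)]
    exact Real.log_le_log (by positivity) (by exact_mod_cast hmn.le)
  have h2 : (k : ℝ) ≤ Lk m n k := by
    refine le_trans ?_ (Nat.le_ceil _)
    exact le_mul_of_one_le_right (by positivity) h1
  exact_mod_cast h2

lemma pow_Lk_ge (hm : 2 ≤ m) (hmn : m < n) (k : ℕ) : (n : ℝ) ^ k ≤ (m : ℝ) ^ (Lk m n k) := by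
  rw [pow_eq_exp (by omega), pow_eq_exp hm]
  apply Real.exp_le_exp.2
  have h := Nat.le_ceil ((k : ℝ) * (Real.log n / Real.log m))
  have h0 := log_pos_of hm
  calc (k : ℝ) * Real.log n = (k : ℝ) * (Real.log n / Real.log m) * Real.log m := by
        field_simp
    _ ≤ _ := by gcongr; exact h

lemma pow_Lk_le (hm : 2 ≤ m) (hmn : m < n) (k : ℕ) :
    (m : ℝ) ^ (Lk m n k) ≤ m * (n : ℝ) ^ k := by
  have h0 := log_pos_of hm
  have h1 := log_pos_of (show 2 ≤ n by omega)
  rw [pow_eq_exp (b := n) (by omega), pow_eq_exp hm]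
  nth_rewrite 2 [← Real.exp_log (show (0 : ℝ) < m by positivity)]
  rw [← Real.exp_add]
  apply Real.exp_le_exp.2
  have h := (Nat.ceil_lt_add_one (show 0 ≤ (k : ℝ) * (Real.log n / Real.log m) by positivity)).le
  calc (Lk m n k : ℝ) * Real.log m ≤ ((k : ℝ) * (Real.log n / Real.log m) + 1) * Real.log m := by
        gcongr; exact h
    _ = _ := by field_simp; ring

/-- number of approximate squares of level `k` -/
noncomputable def X (D : Finset (Fin m × Fin n)) (k : ℕ) : ℝ :=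
  (D.card : ℝ) ^ k * (numCols D : ℝ) ^ (Lk m n k - k)

/-- McMullen's formula -/
noncomputable def sdim (D : Finset (Fin m × Fin n)) : ℝ :=
  Real.log (numCols D) / Real.log m + Real.log ((D.card : ℝ) / numCols D) / Real.log n

lemma numCols_pos (hD : D.Nonempty) : 0 < numCols D := (hD.image _).card_pos

lemma numCols_le : numCols D ≤ D.card := Finset.card_image_le

lemma alpha_nonneg (hm : 2 ≤ m) (hD : D.Nonempty) :
    0 ≤ Real.log (numCols D) / Real.log m := by
  have h0 := log_pos_of hm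
  have : (1 : ℝ) ≤ numCols D := by exact_mod_cast numCols_pos hD
  have := Real.log_nonneg this
  positivity

lemma beta_nonneg (hn : 2 ≤ n) (hD : D.Nonempty) :
    0 ≤ Real.log ((D.card : ℝ) / numCols D) / Real.log n := by
  have h0 := log_pos_of hn
  have h1 : (0 : ℝ) < numCols D := by exact_mod_cast numCols_pos hD
  have h2 : (numCols D : ℝ) ≤ D.card := by exact_mod_cast numCols_le
  have := Real.log_nonneg ((one_le_div h1).2 h2)
  positivity

lemma sdim_nonneg (hm : 2 ≤ m) (hmn : m < n) (hD : D.Nonempty) : 0 ≤ sdim D :=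
  add_nonneg (alpha_nonneg hm hD) (beta_nonneg (by omega) hD)

lemma rpow_log_div {b : ℕ} (hb : 2 ≤ b) {y : ℝ} (hy : 0 < y) :
    (b : ℝ) ^ (Real.log y / Real.log b) = y := by
  have h0 := log_pos_of hb
  rw [Real.rpow_def_of_pos (by positivity), mul_div_cancel₀ _ h0.ne', Real.exp_log hy]

lemma X_eq (hm : 2 ≤ m) (hmn : m < n) (hD : D.Nonempty) (k : ℕ) :
    X D k = (((n : ℝ) ^ k) ^ (Real.log ((D.card : ℝ) / numCols D) / Real.log n)) *
      (((m : ℝ) ^ (Lk m n k)) ^ (Real.log (numCols D) / Real.log m)) := by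
  have h1 : (0 : ℝ) < numCols D := by exact_mod_cast numCols_pos hD
  have h3 : (0 : ℝ) < D.card := by exact_mod_cast hD.card_pos
  have e1 : ((n : ℝ) ^ k) ^ (Real.log ((D.card : ℝ) / numCols D) / Real.log n) =
      ((D.card : ℝ) / numCols D) ^ k := by
    rw [← Real.rpow_natCast, ← Real.rpow_mul (by positivity), mul_comm,
      Real.rpow_mul (by positivity), rpow_log_div (by omega) (by positivity), Real.rpow_natCast]
  have e2 : ((m : ℝ) ^ (Lk m n k)) ^ (Real.log (numCols D) / Real.log m) =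
      (numCols D : ℝ) ^ (Lk m n k) := by
    rw [← Real.rpow_natCast, ← Real.rpow_mul (by positivity), mul_comm,
      Real.rpow_mul (by positivity), rpow_log_div hm h1, Real.rpow_natCast]
  rw [e1, e2, X, div_pow]
  have h4 : (numCols D : ℝ) ^ (Lk m n k) =
      (numCols D : ℝ) ^ (Lk m n k - k) * (numCols D : ℝ) ^ k := by
    rw [← pow_add, Nat.sub_add_cancel (le_Lk hm hmn k)]
  rw [h4]
  field_simp

lemma X_ge (hm : 2 ≤ m) (hmn : m < n) (hD : D.Nonempty) (k : ℕ) :
    ((n : ℝ) ^ k) ^ (sdim D) ≤ X D k := by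
  have hn : 2 ≤ n := by omega
  have hn0 : (0 : ℝ) < (n : ℝ) ^ k := by positivity
  rw [X_eq hm hmn hD, sdim, add_comm, Real.rpow_add hn0]
  have h1 : ((n : ℝ) ^ k) ^ (Real.log (numCols D) / Real.log m) ≤
      ((m : ℝ) ^ (Lk m n k)) ^ (Real.log (numCols D) / Real.log m) :=
    Real.rpow_le_rpow hn0.le (pow_Lk_ge hm hmn k) (alpha_nonneg hm hD)
  exact mul_le_mul_of_nonneg_left h1 (by positivity)

lemma X_le (hm : 2 ≤ m) (hmn : m < n) (hD : D.Nonempty) (k : ℕ) :
    X D k ≤ (m : ℝ) ^ (Real.log (numCols D) / Real.log m) * ((n : ℝ) ^ k) ^ (sdim D) := by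
  have hn : 2 ≤ n := by omega
  have hn0 : (0 : ℝ) < (n : ℝ) ^ k := by positivity
  have hm0 : (0 : ℝ) < m := by positivity
  rw [X_eq hm hmn hD, sdim, Real.rpow_add hn0]
  have h1 : ((m : ℝ) ^ (Lk m n k)) ^ (Real.log (numCols D) / Real.log m) ≤
      (m : ℝ) ^ (Real.log (numCols D) / Real.log m) *
      ((n : ℝ) ^ k) ^ (Real.log (numCols D) / Real.log m) := by
    rw [← Real.mul_rpow hm0.le hn0.le]
    exact Real.rpow_le_rpow (by positivity) (pow_Lk_le hm hmn k) (alpha_nonneg hm hD)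
  calc _ ≤ (((n : ℝ) ^ k) ^ (Real.log ((D.card : ℝ) / numCols D) / Real.log n)) *
      ((m : ℝ) ^ (Real.log (numCols D) / Real.log m) *
      ((n : ℝ) ^ k) ^ (Real.log (numCols D) / Real.log m)) := by gcongr
    _ = _ := by ring

lemma cube_le (hn : 2 ≤ n) {δ : ℝ} (hδ : 0 < δ) :
    ∃ C : ℝ, 0 < C ∧ ∀ k : ℕ, ((k : ℝ) + 1) ^ 3 ≤ C * ((n : ℝ) ^ k) ^ δ := by
  have hn0 : (0 : ℝ) < n := by positivity
  have hn1 : (1 : ℝ) < n := by exact_mod_cast (by omega : 1 < n)
  set ρ : ℝ := (n : ℝ) ^ δ with hρ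
  have hρ1 : 1 < ρ := Real.one_lt_rpow hn1 hδ
  have ht := tendsto_pow_const_div_const_pow_of_one_lt 3 hρ1
  obtain ⟨C, hC⟩ := ht.bddAbove_range
  have hC' : ∀ k : ℕ, (k : ℝ) ^ 3 / ρ ^ k ≤ C := fun k => hC ⟨k, rfl⟩
  have hρ0 : 0 < ρ := by linarith
  have hCpos : 0 < C := by
    have h3 := hC' 1
    have h4 : (0 : ℝ) < ((1 : ℕ) : ℝ) ^ 3 / ρ ^ 1 := by
      rw [Nat.cast_one, one_pow]
      exact div_pos one_pos (pow_pos hρ0 1)
    linarith
  refine ⟨C * ρ, mul_pos hCpos hρ0, fun k => ?_⟩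
  have h1 := hC' (k + 1)
  rw [div_le_iff₀ (pow_pos hρ0 _)] at h1
  have h2 : ((n : ℝ) ^ k) ^ δ = ρ ^ k := by
    rw [hρ, ← Real.rpow_natCast, ← Real.rpow_mul hn0.le, mul_comm, Real.rpow_mul hn0.le,
      Real.rpow_natCast]
  rw [h2]
  push_cast at h1
  calc ((k : ℝ) + 1) ^ 3 ≤ C * ρ ^ (k + 1) := h1
    _ = C * ρ * ρ ^ k := by rw [pow_succ]; ring

/-- block lengths of the mixture -/
noncomputable def Pk (m n k : ℕ) : ℕ := Lk m n k + 1

lemma weight_ge (hm : 2 ≤ m) (hmn : m < n) {δ : ℝ} (hδ : 0 < δ) :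
    ∃ c : ℝ, 0 < c ∧ ∀ k : ℕ, c * (((n : ℝ) ^ k) ^ δ)⁻¹ ≤ mixW k / Pk m n k := by
  obtain ⟨C, hC, h⟩ := cube_le (show 2 ≤ n by omega) hδ
  have h0 := log_pos_of hm
  have h1 := log_pos_of (show 2 ≤ n by omega)
  have hn : 2 ≤ n := by omega
  have hn0 : (0 : ℝ) < n := by positivity
  set c0 : ℝ := Real.log n / Real.log m with hc0
  have hc0' : 0 < c0 := div_pos h1 h0
  set Z : ℝ := ∑' j : ℕ, 1 / ((j : ℝ) + 1) ^ 2 with hZ
  have hZ0 : 0 < Z := tsum_sq_pos
  have hP : ∀ k : ℕ, (Pk m n k : ℝ) ≤ (c0 + 2) * (k + 1) := by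
    intro k
    have := (Nat.ceil_lt_add_one (show 0 ≤ (k : ℝ) * c0 by positivity)).le
    have h3 : (Pk m n k : ℝ) = (⌈(k : ℝ) * c0⌉₊ : ℝ) + 1 := by simp [Pk, Lk, hc0]
    rw [h3]
    have : (0 : ℝ) ≤ k := by positivity
    nlinarith
  refine ⟨1 / (Z * (c0 + 2) * C), by positivity, fun k => ?_⟩
  have hPpos : (0 : ℝ) < Pk m n k := by simp [Pk]; positivity
  have hnk : (0 : ℝ) < ((n : ℝ) ^ k) ^ δ := by positivity
  rw [mixW, ← hZ, div_div, div_div, one_div_mul_eq_div, inv_eq_one_div, div_div]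
  apply one_div_le_one_div_of_le (by positivity)
  calc ((k : ℝ) + 1) ^ 2 * (Z * (Pk m n k : ℝ)) ≤ ((k : ℝ) + 1) ^ 2 * (Z * ((c0 + 2) * (k + 1))) := by
        gcongr
        exact hP k
    _ = Z * (c0 + 2) * ((k : ℝ) + 1) ^ 3 := by ring
    _ ≤ Z * (c0 + 2) * (C * ((n : ℝ) ^ k) ^ δ) := by
        gcongr
        exact h k
    _ = ((n : ℝ) ^ k) ^ δ * (Z * (c0 + 2) * C) := by ring

lemma measurable_num {b : ℕ} {a : (ℕ → D) → ℕ → ℕ} (ha : ∀ i, Measurable fun ω => a ω i) (k : ℕ) :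
    Measurable fun ω => num b (a ω) k := by
  induction k with
  | zero => exact measurable_const
  | succ k ih =>
    simp only [num]
    exact (ih.const_mul b).add (ha k)

lemma measurable_coding (hm : 2 ≤ m) (hn : 2 ≤ n) : Measurable (coding (D := D)) := by
  refine measurable_of_tendsto_metrizable (f := fun k ω => word ω k 0) (fun k => ?_) ?_
  · have hc : ∀ i, Measurable fun ω : ℕ → D => cols ω i := fun i =>
      (measurable_of_finite (fun d : D => ((d : Fin m × Fin n).1 : ℕ))).comp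
        (measurable_pi_apply (X := fun _ : ℕ => (D : Type)) i)
    have hr : ∀ i, Measurable fun ω : ℕ → D => rows ω i := fun i =>
      (measurable_of_finite (fun d : D => ((d : Fin m × Fin n).2 : ℕ))).comp
        (measurable_pi_apply (X := fun _ : ℕ => (D : Type)) i)
    have h1 : (fun ω : ℕ → D => word ω k 0) = fun ω =>
        WithLp.toLp 2 ![(num m (cols ω) k : ℝ) / (m : ℝ) ^ k,
          (num n (rows ω) k : ℝ) / (n : ℝ) ^ k] := by
      funext ω
      have := word_eq hm hn ω k 0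
      ext i
      fin_cases i
      · simpa using this.1
      · simpa using this.2
    rw [h1]
    refine (PiLp.continuous_toLp 2 (fun _ : Fin 2 => ℝ)).measurable.comp ?_
    rw [measurable_pi_iff]
    intro i
    fin_cases i
    · simp only [Fin.zero_eta, Matrix.cons_val_zero]
      exact ((measurable_from_nat.comp (measurable_num hc k))).div_const _
    · simp only [Fin.mk_one, Matrix.cons_val_one]
      exact ((measurable_from_nat.comp (measurable_num hr k))).div_const _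
  · rw [tendsto_pi_nhds]
    intro ω
    rw [coding_eq hm hn]
    exact tendsto_word hm hn ω (fun _ => 0) ⟨0, by simp⟩

/-- the measure on the carpet -/
noncomputable def mu (D : Finset (Fin m × Fin n)) : Measure Plane :=
  (mixMeas D (Pk m n)).map coding

lemma mu_prob (hm : 2 ≤ m) (hmn : m < n) (hD : D.Nonempty) : IsProbabilityMeasure (mu D) := by
  have := mixMeas_prob hD (Pk m n) (fun k => by simp [Pk])
  exact Measure.isProbabilityMeasure_map (measurable_coding hm (by omega)).aemeasurable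

lemma mu_ball (hm : 2 ≤ m) (hmn : m < n) (hD : D.Nonempty) {δ : ℝ} (hδ : 0 < δ) :
    ∃ C : ℝ, 0 < C ∧ ∀ x ∈ range (coding (D := D)), ∀ r : ℝ, 0 < r → r ≤ 1 →
      ENNReal.ofReal (C * r ^ (sdim D + δ)) ≤ mu D (Metric.closedBall x r) := by
  obtain ⟨c, hc, hw⟩ := weight_ge hm hmn hδ
  have hn : 2 ≤ n := by omega
  have hn0 : (0 : ℝ) < n := by positivity
  have hm0 : (0 : ℝ) < m := by positivity
  have hs := sdim_nonneg hm hmn hD
  have hln := log_pos_of hn
  have hN : (0 : ℝ) < D.card := by exact_mod_cast hD.card_pos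
  have hM : (0 : ℝ) < numCols D := by exact_mod_cast numCols_pos hD
  set a : ℝ := (m : ℝ) ^ (Real.log (numCols D) / Real.log m) with ha
  have ha0 : 0 < a := by positivity
  refine ⟨c / a * ((2 * n : ℝ) ^ (sdim D + δ))⁻¹, by positivity, ?_⟩
  rintro _ ⟨ω, rfl⟩ r hr hr1
  set y : ℝ := Real.log (2 / r) / Real.log n with hy
  have h2r : 1 ≤ 2 / r := by rw [le_div_iff₀ hr]; linarith
  have hy0 : 0 ≤ y := div_nonneg (Real.log_nonneg h2r) hln.le
  set k : ℕ := ⌈y⌉₊ with hk
  have hyn : (n : ℝ) ^ y = 2 / r := rpow_log_div hn (by positivity)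
  have hn1 : (1 : ℝ) ≤ n := by exact_mod_cast (by omega : 1 ≤ n)
  have hk1 : 2 / r ≤ (n : ℝ) ^ k := by
    rw [← hyn, ← Real.rpow_natCast]
    exact Real.rpow_le_rpow_of_exponent_le hn1 (Nat.le_ceil y)
  have hk2 : (n : ℝ) ^ k ≤ 2 * n / r := by
    have h1 : (n : ℝ) ^ k ≤ (n : ℝ) ^ (y + 1) := by
      rw [← Real.rpow_natCast]
      exact Real.rpow_le_rpow_of_exponent_le hn1 (Nat.ceil_lt_add_one hy0).le
    rw [Real.rpow_add hn0, hyn, Real.rpow_one] at h1
    calc _ ≤ _ := h1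
      _ = _ := by ring
  have hnk : (0 : ℝ) < (n : ℝ) ^ k := by positivity
  -- the cylinder is contained in the ball
  have hsub : cyl ω k (Lk m n k) ⊆ coding ⁻¹' (Metric.closedBall (coding ω) r) := by
    rintro ω' ⟨h1, h2⟩
    rw [mem_preimage, Metric.mem_closedBall]
    have e0 := val_close hm (cols_lt ω') (cols_lt ω) (Lk m n k) h2
    have e1 := val_close hn (rows_lt ω') (rows_lt ω) k fun i hi => by
      simp [rows, h1 i hi]
    have e2 := dist_le_add (coding ω') (coding ω)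
    have e3 : (coding ω') 0 - (coding ω) 0 = val m (cols ω') - val m (cols ω) := by
      rw [coding_eq hm hn, coding_eq hm hn]; simp
    have e4 : (coding ω') 1 - (coding ω) 1 = val n (rows ω') - val n (rows ω) := by
      rw [coding_eq hm hn, coding_eq hm hn]; simp
    rw [e3, e4] at e2
    have e5 : 1 / (m : ℝ) ^ (Lk m n k) ≤ 1 / (n : ℝ) ^ k :=
      one_div_le_one_div_of_le hnk (pow_Lk_ge hm hmn k)
    have e6 : 1 / (n : ℝ) ^ k ≤ r / 2 := by
      rw [div_le_iff₀ hnk]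
      rw [div_le_iff₀ hr] at hk1
      linarith
    linarith
  have hmeas := measurable_coding (D := D) hm hn
  have hcyl := mixMeas_cyl hD (Pk m n) ω (le_Lk hm hmn k) (by simp [Pk] : Lk m n k ≤ Pk m n k)
    (by simp [Pk])
  have h3 : mixMeas D (Pk m n) (cyl ω k (Lk m n k)) ≤ mu D (Metric.closedBall (coding ω) r) := by
    rw [mu, Measure.map_apply hmeas Metric.isClosed_closedBall.measurableSet]
    exact measure_mono hsub
  refine le_trans (ENNReal.ofReal_le_ofReal ?_) (hcyl.trans h3)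
  have hX : (D.card : ℝ)⁻¹ ^ k * (numCols D : ℝ)⁻¹ ^ (Lk m n k - k) = (X D k)⁻¹ := by
    rw [X, mul_inv, inv_pow, inv_pow]
  have hXpos : 0 < X D k := by unfold X; positivity
  rw [hX]
  have h4 : (a * ((n : ℝ) ^ k) ^ (sdim D))⁻¹ ≤ (X D k)⁻¹ :=
    inv_anti₀ hXpos (X_le hm hmn hD k)
  calc c / a * ((2 * n : ℝ) ^ (sdim D + δ))⁻¹ * r ^ (sdim D + δ)
      = c / a * ((2 * n / r) ^ (sdim D + δ))⁻¹ := by
        rw [Real.div_rpow (by positivity) hr.le]
        have : (0 : ℝ) < r ^ (sdim D + δ) := by positivity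
        field_simp
    _ ≤ c / a * (((n : ℝ) ^ k) ^ (sdim D + δ))⁻¹ := by
        gcongr
    _ = (c * (((n : ℝ) ^ k) ^ δ)⁻¹) * (a * ((n : ℝ) ^ k) ^ (sdim D))⁻¹ := by
        rw [Real.rpow_add hnk]
        field_simp
    _ ≤ _ := by
        refine mul_le_mul (hw k) h4 (by positivity) ?_
        exact le_trans (by positivity) (hw k)

lemma support_mu (hm : 2 ≤ m) (hmn : m < n) (hD : D.Nonempty) {Λ : Set Plane}
    (hΛ : IsCarpet D Λ) : (mu D).support = Λ := by
  have hn : 2 ≤ n := by omega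
  have hr := carpet_eq_range hm hn hΛ
  obtain ⟨C, hC, h⟩ := mu_ball hm hmn hD one_pos
  apply Subset.antisymm
  · refine Measure.support_subset_of_isClosed hΛ.2.1.isClosed ?_
    rw [mem_ae_iff, mu, Measure.map_apply (measurable_coding hm hn)
      hΛ.2.1.isClosed.measurableSet.compl]
    have : coding ⁻¹' Λᶜ = (∅ : Set (ℕ → D)) := by
      rw [hr]
      ext ω
      simp
    rw [this, measure_empty]
  · intro x hx
    rw [hr] at hx
    rw [Measure.mem_support_iff_forall]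
    intro U hU
    obtain ⟨ε, hε, hεU⟩ := Metric.nhds_basis_closedBall.mem_iff.1 hU
    have h1 : Metric.closedBall x (min ε 1) ⊆ U :=
      (Metric.closedBall_subset_closedBall (min_le_left _ _)).trans hεU
    refine lt_of_lt_of_le ?_ ((h x hx (min ε 1) (by positivity) (min_le_right _ _)).trans
      (measure_mono h1))
    rw [ENNReal.ofReal_pos]
    positivity

/-- packing bound from a lower bound for the measure of balls -/
lemma pack_le {μ : Measure Plane} [IsProbabilityMeasure μ] {Λ : Set Plane} {C t : ℝ} (hC : 0 < C)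
    (h : ∀ x ∈ Λ, ∀ r : ℝ, 0 < r → r ≤ 1 →
      ENNReal.ofReal (C * r ^ t) ≤ μ (Metric.closedBall x r))
    {r : ℝ} (hr : 0 < r) (hr1 : r ≤ 1) :
    Metric.coveringNumber r.toNNReal Λ ≤ (⌊(C * (r / 2) ^ t)⁻¹⌋₊ : ℕ) := by
  refine (Metric.coveringNumber_le_packingNumber _ _).trans ?_
  unfold Metric.packingNumber
  refine iSup_le fun S => iSup_le fun hS => iSup_le fun hsep => ?_
  by_contra hlt
  rw [not_le] at hlt
  set q : ℕ := ⌊(C * (r / 2) ^ t)⁻¹⌋₊ with hq
  have h1 : ((q + 1 : ℕ) : ℕ∞) ≤ S.encard := by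
    push_cast
    exact Order.add_one_le_of_lt hlt
  obtain ⟨T, hTS, hT⟩ := Set.exists_subset_encard_eq h1
  have hTf : T.Finite := Set.finite_of_encard_eq_coe hT
  obtain ⟨F, rfl⟩ := hTf.exists_finset_coe
  have hFc : F.card = q + 1 := by
    rw [Set.encard_coe_eq_coe_finsetCard] at hT
    exact_mod_cast hT
  have hdisj : (F : Set Plane).PairwiseDisjoint fun x => Metric.closedBall x (r / 2) := by
    intro x hx y hy hxy
    apply Metric.closedBall_disjoint_closedBall
    have h2 := hsep (hTS hx) (hTS hy) hxy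
    have h3 : ((r.toNNReal : ℝ≥0) : ℝ≥0∞) < edist x y := h2
    rw [edist_dist, ← ENNReal.ofReal_coe_nnreal, ENNReal.ofReal_lt_ofReal_iff_of_nonneg
      (NNReal.coe_nonneg _), Real.coe_toNNReal _ hr.le] at h3
    linarith
  have h4 : ∑ x ∈ F, μ (Metric.closedBall x (r / 2)) ≤ 1 := by
    rw [← measure_biUnion_finset hdisj fun x _ => Metric.isClosed_closedBall.measurableSet]
    exact prob_le_one
  have h5 : ∑ x ∈ F, ENNReal.ofReal (C * (r / 2) ^ t) ≤ 1 :=
    (Finset.sum_le_sum fun x hx => h x (hS (hTS hx)) (r / 2) (by positivity) (by linarith)).trans h4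
  rw [Finset.sum_const, hFc, nsmul_eq_mul, ← ENNReal.ofReal_natCast,
    ← ENNReal.ofReal_mul (by positivity), ← ENNReal.ofReal_one,
    ENNReal.ofReal_le_ofReal_iff (by norm_num)] at h5
  have hpos : 0 < C * (r / 2) ^ t := by positivity
  have h6 : ((q + 1 : ℕ) : ℝ) ≤ (C * (r / 2) ^ t)⁻¹ := by
    rw [← one_div, le_div_iff₀ hpos]
    exact h5
  have h7 := Nat.lt_floor_add_one ((C * (r / 2) ^ t)⁻¹)
  rw [← hq] at h7
  push_cast at h6
  linarith

lemma cover_ge (hm : 2 ≤ m) (hmn : m < n) (hD : D.Nonempty) :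
    ∃ c : ℝ, 0 < c ∧ ∀ r : ℝ, 0 < r → r ≤ 1 →
      Metric.coveringNumber r.toNNReal (range (coding (D := D))) ≠ ⊤ →
      c * (1 / r) ^ (sdim D) ≤
        ((Metric.coveringNumber r.toNNReal (range (coding (D := D)))).toNat : ℝ) := by
  have hn : 2 ≤ n := by omega
  have hn0 : (0 : ℝ) < n := by positivity
  have hs := sdim_nonneg hm hmn hD
  have hln := log_pos_of hn
  refine ⟨(1 / (n : ℝ)) ^ (sdim D) / ((2 * m + 3) * 5 : ℕ), by positivity, fun r hr hr1 htop => ?_⟩
  obtain ⟨S, hSsub, hSfin, hScov, hScard⟩ := Metric.exists_set_encard_eq_coveringNumber htop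
  obtain ⟨F, rfl⟩ := hSfin.exists_finset_coe
  have hcard : (Metric.coveringNumber r.toNNReal (range (coding (D := D)))).toNat = F.card := by
    rw [← hScard, Set.encard_coe_eq_coe_finsetCard]; rfl
  rw [hcard]
  set y : ℝ := Real.log (1 / r) / Real.log n with hy
  have h2r : 1 ≤ 1 / r := by rw [le_div_iff₀ hr]; linarith
  have hy0 : 0 ≤ y := div_nonneg (Real.log_nonneg h2r) hln.le
  set k : ℕ := ⌊y⌋₊ with hk
  have hyn : (n : ℝ) ^ y = 1 / r := rpow_log_div hn (by positivity)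
  have hn1 : (1 : ℝ) ≤ n := by exact_mod_cast (by omega : 1 ≤ n)
  have hk1 : (n : ℝ) ^ k ≤ 1 / r := by
    rw [← hyn, ← Real.rpow_natCast]
    exact Real.rpow_le_rpow_of_exponent_le hn1 (Nat.floor_le hy0)
  have hk2 : 1 / r ≤ (n : ℝ) ^ k * n := by
    rw [← hyn, ← Real.rpow_natCast]
    nth_rewrite 3 [← Real.rpow_one (n : ℝ)]
    rw [← Real.rpow_add hn0]
    exact Real.rpow_le_rpow_of_exponent_le hn1 (Nat.lt_floor_add_one y).le
  have hnk : (0 : ℝ) < (n : ℝ) ^ k := by positivity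
  have hF : ∀ x ∈ range (coding (D := D)), ∃ z ∈ F, dist x z ≤ 1 / (n : ℝ) ^ k := by
    intro x hx
    obtain ⟨z, hz, hxz⟩ := hScov hx
    refine ⟨z, hz, ?_⟩
    have h3 : edist x z ≤ ((r.toNNReal : ℝ≥0) : ℝ≥0∞) := hxz
    rw [edist_dist, ← ENNReal.ofReal_coe_nnreal, ENNReal.ofReal_le_ofReal_iff
      (NNReal.coe_nonneg _), Real.coe_toNNReal _ hr.le] at h3
    refine h3.trans ?_
    rw [le_div_iff₀ hnk]
    rw [le_div_iff₀ hr] at hk1
    linarith
  have hcount := count hm hn hD (le_Lk hm hmn k) (pow_Lk_le hm hmn k) F hF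
  have hcount' : X D k ≤ F.card * ((2 * m + 3) * 5 : ℕ) := by
    unfold X
    exact_mod_cast hcount
  have hX := X_ge hm hmn hD k
  rw [div_mul_eq_mul_div, div_le_iff₀ (by positivity)]
  refine le_trans ?_ (hX.trans hcount')
  rw [← Real.mul_rpow (by positivity) (by positivity)]
  apply Real.rpow_le_rpow (by positivity) _ hs
  rw [one_div_mul_eq_div, div_le_iff₀ hn0]
  exact hk2

end Pool.Agent.R221.BM
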