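import Pool.Agent.R221.BM.Defs

set_option autoImplicit false

open Filter Topology Set MeasureTheory
open scoped ENNReal NNReal

namespace Pool.Agent.R221.BM

variable {m n : ℕ} {D : Finset (Fin m × Fin n)}

/-- the measure with weights `c` on the alphabet -/
noncomputable def wt (c : D → ℝ≥0∞) : Measure D := ∑ d : D, c d • Measure.dirac d

lemma wt_apply (c : D → ℝ≥0∞) (S : Set D) [DecidablePred (· ∈ S)] :
    wt c S = ∑ d ∈ Finset.univ.filter (· ∈ S), c d := by
  have hS : MeasurableSet S := S.toFinite.measurableSet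
  rw [wt, Measure.coe_finsetSum, Finset.sum_apply, Finset.sum_filter]
  refine Finset.sum_congr rfl fun d _ => ?_
  rw [Measure.smul_apply, Measure.dirac_apply' _ hS, smul_eq_mul]
  by_cases h : d ∈ S <;> simp [h]

lemma wt_singleton (c : D → ℝ≥0∞) (d : D) : wt c {d} = c d := by
  classical
  rw [wt_apply]
  have : Finset.univ.filter (· ∈ ({d} : Set D)) = {d} := by ext; simp
  rw [this, Finset.sum_singleton]

/-- number of nonempty columns -/
def numCols (D : Finset (Fin m × Fin n)) : ℕ := (D.image Prod.fst).card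

/-- number of chosen rectangles in a column -/
def fibre (D : Finset (Fin m × Fin n)) (i : Fin m) : ℕ := (D.filter fun d => d.1 = i).card

lemma fibre_pos (d : D) : 0 < fibre D (d : Fin m × Fin n).1 :=
  Finset.card_pos.2 ⟨d, Finset.mem_filter.2 ⟨d.2, rfl⟩⟩

/-- the uniform weights -/
noncomputable def c₁ (_ : D) : ℝ≥0∞ := (D.card : ℝ≥0∞)⁻¹

/-- the weights with uniform columns -/
noncomputable def c₂ (d : D) : ℝ≥0∞ :=
  (numCols D : ℝ≥0∞)⁻¹ * (fibre D (d : Fin m × Fin n).1 : ℝ≥0∞)⁻¹

lemma sum_c₁ (hD : D.Nonempty) : ∑ d : D, c₁ d = 1 := by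
  simp only [c₁, Finset.sum_const, Finset.card_univ, Fintype.card_coe, nsmul_eq_mul]
  exact ENNReal.mul_inv_cancel (by simpa using hD.ne_empty) (by simp)

lemma card_filter_sub (i : Fin m) :
    (Finset.univ.filter fun d : D => (d : Fin m × Fin n).1 = i).card = fibre D i := by
  rw [fibre, ← Finset.card_map (Function.Embedding.subtype _)]
  congr 1
  ext d
  simp only [Finset.mem_map, Finset.mem_filter, Finset.mem_univ, true_and,
    Function.Embedding.coe_subtype, Subtype.exists, exists_and_right, exists_eq_right]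
  constructor
  · rintro ⟨h1, h2⟩; exact ⟨h1, h2⟩
  · rintro ⟨h1, h2⟩; exact ⟨h1, h2⟩

lemma sum_col (i : Fin m) (hi : i ∈ D.image Prod.fst) :
    ∑ d ∈ Finset.univ.filter (fun d : D => (d : Fin m × Fin n).1 = i), c₂ d =
      (numCols D : ℝ≥0∞)⁻¹ := by
  have h1 : ∀ d ∈ Finset.univ.filter (fun d : D => (d : Fin m × Fin n).1 = i),
      c₂ d = (numCols D : ℝ≥0∞)⁻¹ * (fibre D i : ℝ≥0∞)⁻¹ := by
    intro d hd
    rw [Finset.mem_filter] at hd
    rw [c₂, hd.2]
  rw [Finset.sum_congr rfl h1, Finset.sum_const, card_filter_sub, nsmul_eq_mul]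
  obtain ⟨d, hd, rfl⟩ := Finset.mem_image.1 hi
  have h2 : (fibre D d.1 : ℝ≥0∞) ≠ 0 := by
    exact_mod_cast (fibre_pos (⟨d, hd⟩ : D)).ne'
  rw [mul_left_comm, ENNReal.mul_inv_cancel h2 (by simp), mul_one]

lemma sum_c₂ (hD : D.Nonempty) : ∑ d : D, c₂ d = 1 := by
  classical
  rw [← Finset.sum_fiberwise_of_maps_to (t := D.image Prod.fst)
    (g := fun d : D => (d : Fin m × Fin n).1) (fun d _ => Finset.mem_image_of_mem _ d.2)]
  rw [Finset.sum_congr rfl fun i hi => sum_col i hi, Finset.sum_const, nsmul_eq_mul]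
  refine ENNReal.mul_inv_cancel ?_ (by simp)
  have : (D.image Prod.fst).Nonempty := hD.image _
  simpa using this.ne_empty

lemma wt_prob (c : D → ℝ≥0∞) (hc : ∑ d : D, c d = 1) : IsProbabilityMeasure (wt c) := by
  classical
  refine ⟨?_⟩
  rw [wt_apply]
  simpa using hc

/-- the periodic sequence of marginals: `k` uniform ones, then column-uniform ones -/
noncomputable def marg (k P j : ℕ) : Measure D := if j % P < k then wt c₁ else wt c₂

lemma marg_prob (hD : D.Nonempty) (k P j : ℕ) : IsProbabilityMeasure (marg (D := D) k P j) := by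
  unfold marg
  split_ifs
  · exact wt_prob _ (sum_c₁ hD)
  · exact wt_prob _ (sum_c₂ hD)

/-- the product measure with phase `t` -/
noncomputable def phase (D : Finset (Fin m × Fin n)) (k P t : ℕ) : Measure (ℕ → D) :=
  Measure.infinitePi fun i => marg k P (i + t)

lemma phase_prob (hD : D.Nonempty) (k P t : ℕ) : IsProbabilityMeasure (phase D k P t) := by
  have := fun j => marg_prob (D := D) hD k P j
  unfold phase
  infer_instance

lemma measurable_shift : Measurable (shift (D := D)) := by
  unfold shift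
  fun_prop

lemma map_phase (hD : D.Nonempty) (k P t : ℕ) :
    (phase D k P t).map shift = phase D k P (t + 1) := by
  have h0 := fun j => marg_prob (D := D) hD k P j
  unfold phase
  refine Measure.eq_infinitePi _ fun s T hT => ?_
  rw [Measure.map_apply measurable_shift (.pi s.countable_toSet fun i _ => hT i)]
  classical
  have h1 : shift ⁻¹' ((s : Set ℕ).pi T) =
      ((s.map (addRightEmbedding 1) : Finset ℕ) : Set ℕ).pi (fun i => T (i - 1)) := by
    ext ω
    simp only [mem_preimage, Set.mem_pi, Finset.mem_coe, Finset.mem_map, addRightEmbedding_apply,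
      forall_exists_index, and_imp, shift]
    constructor
    · rintro h _ i hi rfl
      simpa using h i hi
    · intro h i hi
      simpa using h (i + 1) i hi rfl
  rw [h1, Measure.infinitePi_pi _ (fun i _ => hT _), Finset.prod_map]
  refine Finset.prod_congr rfl fun i _ => ?_
  simp only [addRightEmbedding_apply, Nat.add_sub_cancel]
  congr 2
  omega

lemma phase_period (k P : ℕ) : phase D k P P = phase D k P 0 := by
  unfold phase marg
  simp

/-- the invariant measure with blocks of length `P` -/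
noncomputable def blockMeas (D : Finset (Fin m × Fin n)) (k P : ℕ) : Measure (ℕ → D) :=
  (P : ℝ≥0∞)⁻¹ • ∑ t ∈ Finset.range P, phase D k P t

lemma blockMeas_prob (hD : D.Nonempty) (k : ℕ) {P : ℕ} (hP : 0 < P) :
    IsProbabilityMeasure (blockMeas D k P) := by
  have := fun t => phase_prob (D := D) hD k P t
  refine ⟨?_⟩
  rw [blockMeas, Measure.smul_apply, Measure.coe_finsetSum, Finset.sum_apply]
  simp only [measure_univ, Finset.sum_const, Finset.card_range, nsmul_eq_mul, mul_one,
    smul_eq_mul]
  exact ENNReal.inv_mul_cancel (by exact_mod_cast hP.ne') (by simp)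

lemma map_blockMeas (hD : D.Nonempty) (k : ℕ) {P : ℕ} (hP : 0 < P) :
    (blockMeas D k P).map shift = blockMeas D k P := by
  have hm := measurable_shift (D := D)
  have h1 : (∑ t ∈ Finset.range P, phase D k P t).map shift =
      ∑ t ∈ Finset.range P, (phase D k P t).map shift := by
    ext S hS
    rw [Measure.map_apply hm hS, Measure.coe_finsetSum, Measure.coe_finsetSum,
      Finset.sum_apply, Finset.sum_apply]
    exact Finset.sum_congr rfl fun t _ => (Measure.map_apply hm hS).symm
  rw [blockMeas, Measure.map_smul, h1]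
  congr 1
  rw [Finset.sum_congr rfl fun t _ => map_phase hD k P t]
  obtain ⟨Q, rfl⟩ : ∃ Q, P = Q + 1 := ⟨P - 1, by omega⟩
  rw [Finset.sum_range_succ, Finset.sum_range_succ' (fun t => phase D k (Q + 1) t),
    phase_period]

/-- weights of the mixture -/
noncomputable def mixW (k : ℕ) : ℝ := (1 / ((k : ℝ) + 1) ^ 2) / ∑' j : ℕ, 1 / ((j : ℝ) + 1) ^ 2

lemma summable_sq : Summable fun j : ℕ => 1 / ((j : ℝ) + 1) ^ 2 := by
  have := (summable_nat_add_iff 1).2 (Real.summable_one_div_nat_pow.2 one_lt_two)
  simpa using this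

lemma tsum_sq_pos : 0 < ∑' j : ℕ, 1 / ((j : ℝ) + 1) ^ 2 :=
  summable_sq.tsum_pos (fun j => by positivity) 0 (by norm_num)

lemma mixW_pos (k : ℕ) : 0 < mixW k := by
  unfold mixW
  have := tsum_sq_pos
  positivity

lemma tsum_mixW : ∑' k, ENNReal.ofReal (mixW k) = 1 := by
  rw [← ENNReal.ofReal_tsum_of_nonneg (fun k => (mixW_pos k).le)
    (by unfold mixW; exact summable_sq.div_const _)]
  unfold mixW
  rw [tsum_div_const, div_self tsum_sq_pos.ne', ENNReal.ofReal_one]

/-- the mixture -/
noncomputable def mixMeas (D : Finset (Fin m × Fin n)) (P : ℕ → ℕ) : Measure (ℕ → D) :=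
  Measure.sum fun k => ENNReal.ofReal (mixW k) • blockMeas D k (P k)

lemma mixMeas_prob (hD : D.Nonempty) (P : ℕ → ℕ) (hP : ∀ k, 0 < P k) :
    IsProbabilityMeasure (mixMeas D P) := by
  have := fun k => blockMeas_prob (D := D) hD k (hP k)
  refine ⟨?_⟩
  rw [mixMeas, Measure.sum_apply _ MeasurableSet.univ]
  simp only [Measure.smul_apply, measure_univ, smul_eq_mul, mul_one]
  exact tsum_mixW

lemma map_mixMeas (hD : D.Nonempty) (P : ℕ → ℕ) (hP : ∀ k, 0 < P k) :
    (mixMeas D P).map shift = mixMeas D P := by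
  rw [mixMeas, Measure.map_sum measurable_shift.aemeasurable]
  congr 1
  funext k
  rw [Measure.map_smul, map_blockMeas hD k (hP k)]

/-- the cylinder of an approximate square -/
def cyl (ω : ℕ → D) (k L : ℕ) : Set (ℕ → D) :=
  {ω' | (∀ i < k, ω' i = ω i) ∧ ∀ i < L, cols ω' i = cols ω i}

lemma phase_cyl (hD : D.Nonempty) (ω : ℕ → D) {k L P : ℕ} (hk : k ≤ L) (hL : L ≤ P) :
    phase D k P 0 (cyl ω k L) =
      ((D.card : ℝ≥0∞)⁻¹) ^ k * ((numCols D : ℝ≥0∞)⁻¹) ^ (L - k) := by
  classical
  have h0 := fun j => marg_prob (D := D) hD k P j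
  have h1 : cyl ω k L = ((Finset.range L : Finset ℕ) : Set ℕ).pi
      (fun i => if i < k then {ω i} else {d | (d : Fin m × Fin n).1 = (ω i : Fin m × Fin n).1}) := by
    ext ω'
    simp only [cyl, mem_ofPred_eq, Set.mem_pi, Finset.mem_coe, Finset.mem_range]
    constructor
    · rintro ⟨h1, h2⟩ i hi
      split_ifs with hik
      · exact h1 i hik
      · exact Fin.ext (h2 i hi)
    · intro h
      refine ⟨fun i hi => ?_, fun i hi => ?_⟩
      · have := h i (by omega)
        rw [if_pos hi] at this
        exact this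
      · have := h i hi
        split_ifs at this with hik
        · have h3 : ω' i = ω i := this
          simp [cols, h3]
        · have h3 : (ω' i : Fin m × Fin n).1 = (ω i : Fin m × Fin n).1 := this
          simp [cols, h3]
  have hmeas : ∀ i, MeasurableSet (if i < k then ({ω i} : Set D) else
      {d | (d : Fin m × Fin n).1 = (ω i : Fin m × Fin n).1}) :=
    fun i => (Set.toFinite _).measurableSet
  rw [h1, phase, Measure.infinitePi_pi _ (fun i _ => hmeas i)]
  have h2 : ∀ i ∈ Finset.range L, (marg k P (i + 0) : Measure D) (if i < k then ({ω i} : Set D) else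
      {d | (d : Fin m × Fin n).1 = (ω i : Fin m × Fin n).1}) =
      if i < k then (D.card : ℝ≥0∞)⁻¹ else (numCols D : ℝ≥0∞)⁻¹ := by
    intro i hi
    rw [Finset.mem_range] at hi
    have hmod : (i + 0) % P = i := by
      rw [add_zero]; exact Nat.mod_eq_of_lt (by omega)
    by_cases hik : i < k
    · simp only [if_pos hik, marg, hmod]
      rw [wt_singleton, c₁]
    · simp only [if_neg hik, marg, hmod]
      rw [wt_apply]
      exact sum_col _ (Finset.mem_image_of_mem _ (ω i).2)
  rw [Finset.prod_congr rfl h2, Finset.prod_ite, Finset.prod_const, Finset.prod_const]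
  congr 2
  · have : (Finset.range L).filter (fun i => i < k) = Finset.range k := by
      ext i; simp; omega
    rw [this, Finset.card_range]
  · have : (Finset.range L).filter (fun i => ¬ i < k) = Finset.Ico k L := by
      ext i; simp; omega
    rw [this, Nat.card_Ico]

lemma measurableSet_cyl (ω : ℕ → D) (k L : ℕ) : MeasurableSet (cyl ω k L) := by
  have h1 : cyl ω k L = (⋂ i ∈ Finset.range k, {ω' | ω' i = ω i}) ∩
      ⋂ i ∈ Finset.range L, {ω' | cols ω' i = cols ω i} := by
    ext ω'; simp [cyl]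
  rw [h1]
  refine MeasurableSet.inter ?_ ?_
  · refine Finset.measurableSet_biInter _ fun i _ => ?_
    exact (measurable_pi_apply (X := fun _ : ℕ => (D : Type)) i) (measurableSet_singleton (ω i))
  · refine Finset.measurableSet_biInter _ fun i _ => ?_
    exact (measurable_pi_apply (X := fun _ : ℕ => (D : Type)) i)
      (Set.toFinite {d : D | ((d : Fin m × Fin n).1 : ℕ) = cols ω i}).measurableSet

lemma mixMeas_cyl (hD : D.Nonempty) (P : ℕ → ℕ) (ω : ℕ → D) {k L : ℕ} (hk : k ≤ L) (hL : L ≤ P k)
    (hP : 0 < P k) :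
    ENNReal.ofReal (mixW k / P k * ((D.card : ℝ)⁻¹ ^ k * (numCols D : ℝ)⁻¹ ^ (L - k))) ≤
      mixMeas D P (cyl ω k L) := by
  have hms := measurableSet_cyl ω k L
  have hN : (0 : ℝ) < D.card := by exact_mod_cast hD.card_pos
  have hM : (0 : ℝ) < numCols D := by
    have : 0 < numCols D := (hD.image _).card_pos
    exact_mod_cast this
  have hP' : (0 : ℝ) < P k := by exact_mod_cast hP
  have h1 : ENNReal.ofReal (mixW k) * blockMeas D k (P k) (cyl ω k L) ≤ mixMeas D P (cyl ω k L) := by
    rw [mixMeas, Measure.sum_apply _ hms]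
    exact ENNReal.le_tsum k
  refine le_trans ?_ h1
  have h2 : (P k : ℝ≥0∞)⁻¹ * phase D k (P k) 0 (cyl ω k L) ≤ blockMeas D k (P k) (cyl ω k L) := by
    rw [blockMeas, Measure.smul_apply, Measure.coe_finsetSum, Finset.sum_apply, smul_eq_mul]
    gcongr
    exact Finset.single_le_sum (f := fun t => phase D k (P k) t (cyl ω k L))
      (fun _ _ => zero_le) (Finset.mem_range.2 hP)
  refine le_trans (le_of_eq ?_) (mul_le_mul_right h2 _)
  rw [phase_cyl hD ω hk hL, div_mul_eq_mul_div, mul_div_assoc,
    ENNReal.ofReal_mul (mixW_pos k).le, div_eq_inv_mul, ENNReal.ofReal_mul (by positivity),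
    ENNReal.ofReal_mul (by positivity), ENNReal.ofReal_pow (by positivity),
    ENNReal.ofReal_pow (by positivity), ENNReal.ofReal_inv_of_pos hN, ENNReal.ofReal_inv_of_pos hM,
    ENNReal.ofReal_inv_of_pos hP', ENNReal.ofReal_natCast, ENNReal.ofReal_natCast,
    ENNReal.ofReal_natCast]

end Pool.Agent.R221.BM
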